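import Pool.Agent.Lib.MP_70614a_al.Main

open CategoryTheory Pool.Agent.Lib.MP_70614a_al

theorem Pool.Agent.Results.MP_70614a_al.FrattiniGldimCounter.result :
    ∃ (G : Type) (_ : Group G) (_ : Finite G) (_ : LocallyFiniteOrder (Subgroup G))
      (_ : DecidableEq (Subgroup G)),
      (∀ (H : Subgroup G) (n : ℕ),
        Nontrivial (Abelian.Ext (simpleMod H) (simpleMod ((frattini H).map H.subtype)) n) →
          n ≤ 3) ∧
      (4 : WithBot ℕ∞) ≤
        ⨆ M : ModuleCat.{0} (IncidenceAlgebra ℚ (Subgroup G)), projectiveDimension M := by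
  classical
  letI : Fintype (Subgroup G0) := Fintype.ofFinite _
  letI : LocallyFiniteOrder (Subgroup G0) := Fintype.toLocallyFiniteOrder
  refine ⟨G0, inferInstance, inferInstance, inferInstance, inferInstance, ?_, ?_⟩
  · intro H n hn
    by_contra hc
    have h1 : V ((frattini H).map H.subtype) n {H} := by
      refine upper setup (Subgroup.map_subtype_le _) ?_ (by omega)
      rintro g hg _ ⟨k, hk, rfl⟩
      exact ⟨_, (inferInstance : (frattini H).Normal).conj_mem k hk ⟨g, hg⟩, rfl⟩
    obtain ⟨x, y, hxy⟩ := hn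
    have h2 := (van_point_iff H n).1 h1
    exact hxy ((h2 x).trans (h2 y).symm)
  · refine le_trans ?_ (le_iSup _ (simpleMod (⊤ : Subgroup G0)))
    refine (projectiveDimension_ge_iff _ 4).2 fun hlt => lower setup ?_
    refine (van_point_iff _ 4).2 fun e => ?_
    exact e.eq_zero_of_hasProjectiveDimensionLT 4 le_rfl
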